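import Mathlib

/-!
Congruent dissections of plane sets, following the definitions of the problem file.
The Euclidean plane is `ℂ` with its usual distance.
-/

set_option autoImplicit false

namespace Pool.Agent.helper15.Hexagon

open Set

/-- The closed regular `n`-gon with centre `c` having `c + v` as one of its vertices (`n ≥ 3`,
`v ≠ 0`): the convex hull of the points `c + v * exp (2 π i k / n)`. -/
def regularPolygon (n : ℕ) (c v : ℂ) : Set ℂ :=
  convexHull ℝ (Set.range fun k : Fin n =>
    c + v * Complex.exp (2 * Real.pi * Complex.I * ((k : ℕ) : ℂ) / n))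

/-- The boundary of `P` is the union of finitely many rectifiable Jordan arcs: images of
`[0, 1]` under continuous injective maps of bounded variation (finite length). -/
def RectifiableBoundary (P : Set ℂ) : Prop :=
  ∃ (N : ℕ) (γ : Fin N → ℝ → ℂ),
    (∀ k, ContinuousOn (γ k) (Icc 0 1) ∧ InjOn (γ k) (Icc 0 1) ∧
      BoundedVariationOn (γ k) (Icc 0 1)) ∧
    frontier P = ⋃ k, γ k '' Icc 0 1

/-- `P 0, …, P (n-1)` is a congruent dissection of `K` into `n ≥ 2` pieces. -/
structure CongruentDissection (K : Set ℂ) (n : ℕ) (P : Fin n → Set ℂ) : Prop where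
  two_le : 2 ≤ n
  isCompact : ∀ i, IsCompact (P i)
  closure_interior : ∀ i, closure (interior (P i)) = P i
  boundary : ∀ i, RectifiableBoundary (P i)
  cover : ⋃ i, P i = K
  disjoint : ∀ i j, i ≠ j → Disjoint (interior (P i)) (interior (P j))
  congruent : ∀ i j, ∃ g : ℂ ≃ᵢ ℂ, g '' P i = P j

end Pool.Agent.helper15.Hexagon
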