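import Pool.Agent.helper15.Hexagon.Defs

/-!
Coordinates with respect to the triangular lattice, regions bounded by lattice lines.
-/

set_option autoImplicit false

namespace Pool.Agent.helper15.Hexagon

open Set

/-- the primitive sixth root of unity -/
noncomputable def om : ℂ := ⟨1 / 2, √3 / 2⟩

theorem s3_pos : (0 : ℝ) < √3 := Real.sqrt_pos.2 (by norm_num)
theorem s3_sq : √3 * √3 = (3 : ℝ) := Real.mul_self_sqrt (by norm_num)
theorem s3_ne : (√3 : ℝ) ≠ 0 := s3_pos.ne'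

/-- the three lattice coordinates of a point -/
noncomputable def X : ℂ →L[ℝ] ℝ := Complex.reCLM - (1 / √3 : ℝ) • Complex.imCLM
noncomputable def Y : ℂ →L[ℝ] ℝ := (2 / √3 : ℝ) • Complex.imCLM
noncomputable def S : ℂ →L[ℝ] ℝ := X + Y

theorem X_apply (z : ℂ) : X z = z.re - 1 / √3 * z.im := by simp [X]
theorem Y_apply (z : ℂ) : Y z = 2 / √3 * z.im := by simp [Y]
theorem S_apply (z : ℂ) : S z = X z + Y z := by simp [S]

/-- the point with given coordinates -/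
noncomputable def pt (x y : ℝ) : ℂ := x + y * om

theorem pt_re (x y : ℝ) : (pt x y).re = x + y / 2 := by
  simp [pt, om]; ring
theorem pt_im (x y : ℝ) : (pt x y).im = y * (√3 / 2) := by
  simp [pt, om]

@[simp] theorem X_pt (x y : ℝ) : X (pt x y) = x := by
  rw [X_apply, pt_re, pt_im]; field_simp [s3_ne]; ring
@[simp] theorem Y_pt (x y : ℝ) : Y (pt x y) = y := by
  rw [Y_apply, pt_im]; field_simp [s3_ne]
@[simp] theorem S_pt (x y : ℝ) : S (pt x y) = x + y := by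
  rw [S_apply, X_pt, Y_pt]

theorem pt_XY (z : ℂ) : pt (X z) (Y z) = z := by
  apply Complex.ext
  · rw [pt_re, X_apply, Y_apply]; field_simp [s3_ne]; ring
  · rw [pt_im, Y_apply]; field_simp [s3_ne]

theorem ext_XY {z w : ℂ} (h1 : X z = X w) (h2 : Y z = Y w) : z = w := by
  rw [← pt_XY z, ← pt_XY w, h1, h2]

theorem om_mul_pt (x y : ℝ) : om * pt x y = pt (-y) (x + y) := by
  apply Complex.ext
  · rw [pt_re, Complex.mul_re, pt_re, pt_im]; simp only [om]
    have h : √3 / 2 * (y * (√3 / 2)) = 3 * y / 4 := by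
      have : √3 / 2 * (y * (√3 / 2)) = (√3 * √3) * y / 4 := by ring
      rw [this, s3_sq]
    rw [h]; ring
  · rw [pt_im, Complex.mul_im, pt_re, pt_im]; simp only [om]
    ring

theorem conj_pt (x y : ℝ) : (starRingEnd ℂ) (pt x y) = pt (x + y) (-y) := by
  apply Complex.ext
  · rw [pt_re, Complex.conj_re, pt_re]; ring
  · rw [pt_im, Complex.conj_im, pt_im]; ring

theorem pt_add (x y x' y' : ℝ) : pt x y + pt x' y' = pt (x + x') (y + y') := by
  simp only [pt]; push_cast; ring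

/-- a region bounded by lattice lines -/
structure Box where
  lx : ℤ
  ux : ℤ
  ly : ℤ
  uy : ℤ
  ls : ℤ
  us : ℤ
deriving DecidableEq

def Box.set (B : Box) : Set ℂ :=
  {z | (B.lx : ℝ) ≤ X z ∧ X z ≤ B.ux ∧ (B.ly : ℝ) ≤ Y z ∧ Y z ≤ B.uy ∧
    (B.ls : ℝ) ≤ S z ∧ S z ≤ B.us}

theorem Box.convex (B : Box) : Convex ℝ B.set := by
  have h : B.set = (X ⁻¹' Icc (B.lx : ℝ) B.ux) ∩ ((Y ⁻¹' Icc (B.ly : ℝ) B.uy) ∩
      (S ⁻¹' Icc (B.ls : ℝ) B.us)) := by
    ext z; simp only [Box.set, mem_ofPred_eq, mem_inter_iff, mem_preimage, mem_Icc]; tauto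
  rw [h]
  exact ((convex_Icc _ _).linear_preimage X.toLinearMap).inter
    (((convex_Icc _ _).linear_preimage Y.toLinearMap).inter
      ((convex_Icc _ _).linear_preimage S.toLinearMap))

theorem Box.isClosed (B : Box) : IsClosed B.set := by
  have h : B.set = (X ⁻¹' Icc (B.lx : ℝ) B.ux) ∩ ((Y ⁻¹' Icc (B.ly : ℝ) B.uy) ∩
      (S ⁻¹' Icc (B.ls : ℝ) B.us)) := by
    ext z; simp only [Box.set, mem_ofPred_eq, mem_inter_iff, mem_preimage, mem_Icc]; tauto
  rw [h]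
  exact (isClosed_Icc.preimage X.continuous).inter
    ((isClosed_Icc.preimage Y.continuous).inter (isClosed_Icc.preimage S.continuous))

theorem continuous_pt : Continuous fun p : ℝ × ℝ => pt p.1 p.2 := by
  unfold pt
  fun_prop

theorem Box.isCompact (B : Box) : IsCompact B.set := by
  have h1 : IsCompact ((fun p : ℝ × ℝ => pt p.1 p.2) ''
      (Icc (B.lx : ℝ) B.ux ×ˢ Icc (B.ly : ℝ) B.uy)) :=
    (isCompact_Icc.prod isCompact_Icc).image continuous_pt
  refine h1.of_isClosed_subset B.isClosed ?_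
  intro z hz
  refine ⟨(X z, Y z), ⟨⟨hz.1, hz.2.1⟩, ⟨hz.2.2.1, hz.2.2.2.1⟩⟩, pt_XY z⟩

/-- points of the open region are interior -/
theorem Box.mem_interior (B : Box) {z : ℂ} (h1 : (B.lx : ℝ) < X z) (h2 : X z < B.ux)
    (h3 : (B.ly : ℝ) < Y z) (h4 : Y z < B.uy) (h5 : (B.ls : ℝ) < S z) (h6 : S z < B.us) :
    z ∈ interior B.set := by
  rw [_root_.mem_interior]
  refine ⟨(X ⁻¹' Ioo (B.lx : ℝ) B.ux) ∩ ((Y ⁻¹' Ioo (B.ly : ℝ) B.uy) ∩
      (S ⁻¹' Ioo (B.ls : ℝ) B.us)), ?_, ?_, ?_⟩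
  · intro w hw
    obtain ⟨ha, hb, hc⟩ := hw
    exact ⟨ha.1.le, ha.2.le, hb.1.le, hb.2.le, hc.1.le, hc.2.le⟩
  · exact (isOpen_Ioo.preimage X.continuous).inter
      ((isOpen_Ioo.preimage Y.continuous).inter (isOpen_Ioo.preimage S.continuous))
  · exact ⟨⟨h1, h2⟩, ⟨h3, h4⟩, ⟨h5, h6⟩⟩

theorem Box.closure_interior (B : Box) (h : (interior B.set).Nonempty) :
    closure (interior B.set) = B.set := by
  rw [B.convex.closure_interior_eq_closure_of_nonempty_interior h, B.isClosed.closure_eq]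

/-! ### generic points -/

def Gen : Set ℂ := {z | (∀ m : ℤ, X z ≠ m) ∧ (∀ m : ℤ, Y z ≠ m) ∧ (∀ m : ℤ, S z ≠ m)}

theorem X_surj : Function.Surjective X := fun x => ⟨pt x 0, by simp⟩
theorem Y_surj : Function.Surjective Y := fun x => ⟨pt 0 x, by simp⟩
theorem S_surj : Function.Surjective S := fun x => ⟨pt x 0, by simp⟩

theorem Gen_dense : Dense Gen := by
  set C : Set ℝ := (Set.range ((↑) : ℤ → ℝ))ᶜ with hC
  have hCo : IsOpen C := (Int.isClosedEmbedding_coe_real.isClosed_range).isOpen_compl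
  have hCd : Dense C := (Set.countable_range ((↑) : ℤ → ℝ)).dense_compl ℝ
  have h : Gen = (X ⁻¹' C) ∩ ((Y ⁻¹' C) ∩ (S ⁻¹' C)) := by
    ext z
    simp only [Gen, hC, mem_ofPred_eq, mem_inter_iff, mem_preimage, mem_compl_iff, mem_range,
      not_exists]
    constructor
    · rintro ⟨h1, h2, h3⟩
      exact ⟨fun m hm => h1 m hm.symm, fun m hm => h2 m hm.symm, fun m hm => h3 m hm.symm⟩
    · rintro ⟨h1, h2, h3⟩
      exact ⟨fun m hm => h1 m hm.symm, fun m hm => h2 m hm.symm, fun m hm => h3 m hm.symm⟩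
  rw [h]
  have dX : Dense (X ⁻¹' C) := hCd.preimage (X.isOpenMap X_surj)
  have dY : Dense (Y ⁻¹' C) := hCd.preimage (Y.isOpenMap Y_surj)
  have dS : Dense (S ⁻¹' C) := hCd.preimage (S.isOpenMap S_surj)
  exact dX.inter_of_isOpen_left (dY.inter_of_isOpen_left dS (hCo.preimage Y.continuous))
    (hCo.preimage X.continuous)

/-- cell membership -/
def Box.cell (B : Box) (a b c : ℤ) : Bool :=
  decide (B.lx ≤ a) && decide (a < B.ux) && decide (B.ly ≤ b) && decide (b < B.uy) &&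
    decide (B.ls ≤ c) && decide (c < B.us)

theorem le_floor_iff' {r : ℝ} {m : ℤ} : (m : ℝ) ≤ r ↔ m ≤ ⌊r⌋ := Int.le_floor.symm

theorem gen_le_iff {r : ℝ} (hr : ∀ m : ℤ, r ≠ m) {m : ℤ} : r ≤ m ↔ ⌊r⌋ < m := by
  rw [Int.floor_lt]
  exact ⟨fun h => lt_of_le_of_ne h (hr m), le_of_lt⟩

theorem Box.mem_iff_cell (B : Box) {z : ℂ} (hz : z ∈ Gen) :
    z ∈ B.set ↔ B.cell ⌊X z⌋ ⌊Y z⌋ ⌊S z⌋ = true := by
  simp only [Box.set, Box.cell, mem_ofPred_eq, Bool.and_eq_true, decide_eq_true_eq]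
  rw [le_floor_iff', le_floor_iff', le_floor_iff', gen_le_iff hz.1, gen_le_iff hz.2.1,
    gen_le_iff hz.2.2]
  tauto

end Pool.Agent.helper15.Hexagon
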