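import Pool.Agent.helper15.Hexagon.Tile

/-!
Every regular hexagon is a similar copy of the hexagon of side `8`; the final statement.
-/

set_option autoImplicit false

namespace Pool.Agent.helper15.Hexagon

open Set

theorem exp_om : Complex.exp (Real.pi * Complex.I / 3) = om := by
  have h : (Real.pi * Complex.I / 3 : ℂ) = ((Real.pi / 3 : ℝ) : ℂ) * Complex.I := by
    push_cast; ring
  rw [h, Complex.exp_mul_I, ← Complex.ofReal_cos, ← Complex.ofReal_sin, Real.cos_pi_div_three,
    Real.sin_pi_div_three]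
  apply Complex.ext <;> simp [om]

theorem exp_pow (k : ℕ) :
    Complex.exp (2 * Real.pi * Complex.I * (k : ℂ) / (6 : ℕ)) = om ^ k := by
  rw [← exp_om, ← Complex.exp_nat_mul]
  congr 1
  push_cast
  ring

theorem om_pow_pt :
    om ^ 0 = pt 1 0 ∧ om ^ 1 = pt 0 1 ∧ om ^ 2 = pt (-1) 1 ∧ om ^ 3 = pt (-1) 0 ∧
      om ^ 4 = pt 0 (-1) ∧ om ^ 5 = pt 1 (-1) := by
  have h0 : om ^ 0 = pt 1 0 := by simp [pt]
  have h1 : om ^ 1 = pt 0 1 := by simp [pt]
  have h2 : om ^ 2 = pt (-1) 1 := by
    rw [pow_succ', h1, om_mul_pt]; norm_num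
  have h3 : om ^ 3 = pt (-1) 0 := by
    rw [pow_succ', h2, om_mul_pt]; norm_num
  have h4 : om ^ 4 = pt 0 (-1) := by
    rw [pow_succ', h3, om_mul_pt]; norm_num
  have h5 : om ^ 5 = pt 1 (-1) := by
    rw [pow_succ', h4, om_mul_pt]; norm_num
  exact ⟨h0, h1, h2, h3, h4, h5⟩

theorem mul_pt (r x y : ℝ) : (r : ℂ) * pt x y = pt (r * x) (r * y) := by
  simp only [pt]; push_cast; ring

theorem hull_eq : convexHull ℝ (Set.range fun k : Fin 6 => 8 * om ^ (k : ℕ)) = boxH.set := by
  obtain ⟨p0, p1, p2, p3, p4, p5⟩ := om_pow_pt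
  have e8 : (8 : ℂ) = ((8 : ℝ) : ℂ) := by norm_num
  apply Subset.antisymm
  · apply convexHull_min _ boxH.convex
    rintro _ ⟨k, rfl⟩
    fin_cases k
    all_goals simp only [Box.set, boxH, mem_ofPred_eq]
    · show _ ≤ X (8 * om ^ 0) ∧ X (8 * om ^ 0) ≤ _ ∧ _ ≤ Y (8 * om ^ 0) ∧ Y (8 * om ^ 0) ≤ _ ∧
        _ ≤ S (8 * om ^ 0) ∧ S (8 * om ^ 0) ≤ _
      rw [p0, e8, mul_pt]; simp only [X_pt, Y_pt, S_pt]; norm_num
    · show _ ≤ X (8 * om ^ 1) ∧ X (8 * om ^ 1) ≤ _ ∧ _ ≤ Y (8 * om ^ 1) ∧ Y (8 * om ^ 1) ≤ _ ∧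
        _ ≤ S (8 * om ^ 1) ∧ S (8 * om ^ 1) ≤ _
      rw [p1, e8, mul_pt]; simp only [X_pt, Y_pt, S_pt]; norm_num
    · show _ ≤ X (8 * om ^ 2) ∧ X (8 * om ^ 2) ≤ _ ∧ _ ≤ Y (8 * om ^ 2) ∧ Y (8 * om ^ 2) ≤ _ ∧
        _ ≤ S (8 * om ^ 2) ∧ S (8 * om ^ 2) ≤ _
      rw [p2, e8, mul_pt]; simp only [X_pt, Y_pt, S_pt]; norm_num
    · show _ ≤ X (8 * om ^ 3) ∧ X (8 * om ^ 3) ≤ _ ∧ _ ≤ Y (8 * om ^ 3) ∧ Y (8 * om ^ 3) ≤ _ ∧
        _ ≤ S (8 * om ^ 3) ∧ S (8 * om ^ 3) ≤ _
      rw [p3, e8, mul_pt]; simp only [X_pt, Y_pt, S_pt]; norm_num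
    · show _ ≤ X (8 * om ^ 4) ∧ X (8 * om ^ 4) ≤ _ ∧ _ ≤ Y (8 * om ^ 4) ∧ Y (8 * om ^ 4) ≤ _ ∧
        _ ≤ S (8 * om ^ 4) ∧ S (8 * om ^ 4) ≤ _
      rw [p4, e8, mul_pt]; simp only [X_pt, Y_pt, S_pt]; norm_num
    · show _ ≤ X (8 * om ^ 5) ∧ X (8 * om ^ 5) ≤ _ ∧ _ ≤ Y (8 * om ^ 5) ∧ Y (8 * om ^ 5) ≤ _ ∧
        _ ≤ S (8 * om ^ 5) ∧ S (8 * om ^ 5) ≤ _
      rw [p5, e8, mul_pt]; simp only [X_pt, Y_pt, S_pt]; norm_num
  · set C := convexHull ℝ (Set.range fun k : Fin 6 => 8 * om ^ (k : ℕ)) with hC
    have hconv : Convex ℝ C := convex_convexHull ℝ _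
    have hv : ∀ k : Fin 6, 8 * om ^ (k : ℕ) ∈ C := fun k =>
      subset_convexHull ℝ _ ⟨k, rfl⟩
    have q0 : pt 8 0 ∈ C := by
      have := hv 0
      rw [show ((0 : Fin 6) : ℕ) = 0 from rfl, p0, e8, mul_pt] at this
      norm_num at this; exact this
    have q1 : pt 0 8 ∈ C := by
      have := hv 1
      rw [show ((1 : Fin 6) : ℕ) = 1 from rfl, p1, e8, mul_pt] at this
      norm_num at this; exact this
    have q2 : pt (-8) 8 ∈ C := by
      have := hv 2
      rw [show ((2 : Fin 6) : ℕ) = 2 from rfl, p2, e8, mul_pt] at this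
      norm_num at this; exact this
    have q3 : pt (-8) 0 ∈ C := by
      have := hv 3
      rw [show ((3 : Fin 6) : ℕ) = 3 from rfl, p3, e8, mul_pt] at this
      norm_num at this; exact this
    have q4 : pt 0 (-8) ∈ C := by
      have := hv 4
      rw [show ((4 : Fin 6) : ℕ) = 4 from rfl, p4, e8, mul_pt] at this
      norm_num at this; exact this
    have q5 : pt 8 (-8) ∈ C := by
      have := hv 5
      rw [show ((5 : Fin 6) : ℕ) = 5 from rfl, p5, e8, mul_pt] at this
      norm_num at this; exact this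
    have qz : pt 0 0 ∈ C := by
      have h := hconv q0 q3 (by norm_num : (0 : ℝ) ≤ 1 / 2) (by norm_num : (0 : ℝ) ≤ 1 / 2)
        (by norm_num)
      have e : (1 / 2 : ℝ) • pt 8 0 + (1 / 2 : ℝ) • pt (-8) 0 = pt 0 0 := by
        rw [Complex.real_smul, Complex.real_smul, mul_pt, mul_pt, pt_add]; norm_num
      rwa [e] at h
    have key : ∀ (x y x' y' α β : ℝ), pt x y ∈ C → pt x' y' ∈ C → 0 ≤ α → 0 ≤ β → α + β ≤ 8 →
        pt (α / 8 * x + β / 8 * x') (α / 8 * y + β / 8 * y') ∈ C := by
      intro x y x' y' α β h h' ha hb hab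
      by_cases h0 : α + β = 0
      · have e1 : α = 0 := by linarith
        have e2 : β = 0 := by linarith
        subst e1; subst e2; simpa using qz
      · have hpos : 0 < α + β := lt_of_le_of_ne (by linarith) (Ne.symm h0)
        have h1 := hconv h h' (div_nonneg ha hpos.le) (div_nonneg hb hpos.le)
          (by rw [← add_div, div_self h0])
        have h2 := hconv h1 qz (by positivity : (0 : ℝ) ≤ (α + β) / 8)
          (by linarith : (0 : ℝ) ≤ 1 - (α + β) / 8) (by ring)
        have e : ((α + β) / 8 : ℝ) • ((α / (α + β)) • pt x y + (β / (α + β)) • pt x' y') +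
            (1 - (α + β) / 8 : ℝ) • pt 0 0 =
            pt (α / 8 * x + β / 8 * x') (α / 8 * y + β / 8 * y') := by
          simp only [Complex.real_smul, mul_pt, pt_add]
          congr 1 <;> field_simp <;> ring
        rwa [e] at h2
    intro z hz
    obtain ⟨h1, h2, h3, h4, h5, h6⟩ := hz
    simp only [boxH] at h1 h2 h3 h4 h5 h6
    push_cast at h1 h2 h3 h4 h5 h6
    have hs := S_apply z
    rw [← pt_XY z]
    rcases le_total 0 (X z) with hx | hx <;> rcases le_total 0 (Y z) with hy | hy
    · have := key 8 0 0 8 (X z) (Y z) q0 q1 hx hy (by linarith)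
      convert this using 2 <;> ring
    · rcases le_total 0 (S z) with hs' | hs'
      · have := key 8 (-8) 8 0 (-(Y z)) (S z) q5 q0 (by linarith) hs' (by linarith)
        convert this using 2
        · rw [hs]; ring
        · ring
      · have := key 8 (-8) 0 (-8) (X z) (-(S z)) q5 q4 hx (by linarith) (by linarith)
        convert this using 2
        · ring
        · rw [hs]; ring
    · rcases le_total 0 (S z) with hs' | hs'
      · have := key (-8) 8 0 8 (-(X z)) (S z) q2 q1 (by linarith) hs' (by linarith)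
        convert this using 2
        · ring
        · rw [hs]; ring
      · have := key (-8) 8 (-8) 0 (Y z) (-(S z)) q2 q3 hy (by linarith) (by linarith)
        convert this using 2
        · rw [hs]; ring
        · ring
    · have := key (-8) 0 0 (-8) (-(X z)) (-(Y z)) q3 q4 (by linarith) (by linarith) (by linarith)
      convert this using 2 <;> ring

/-- the similarity carrying the hexagon of side `8` to the given one -/
noncomputable def simAff (c v : ℂ) : ℂ →ᵃ[ℝ] ℂ :=
  (LinearMap.mulLeft ℝ (v / 8)).toAffineMap + AffineMap.const ℝ ℂ c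

theorem simAff_apply (c v z : ℂ) : simAff c v z = c + v / 8 * z := by
  simp [simAff, add_comm]

noncomputable def sim (c v : ℂ) (hv : v ≠ 0) : ℂ ≃ₜ ℂ :=
  (Homeomorph.mulLeft₀ (v / 8) (div_ne_zero hv (by norm_num))).trans (Homeomorph.addLeft c)

theorem sim_apply (c v : ℂ) (hv : v ≠ 0) (z : ℂ) : sim c v hv z = c + v / 8 * z := rfl

theorem polygon_eq (c v : ℂ) (hv : v ≠ 0) :
    regularPolygon 6 c v = sim c v hv '' boxH.set := by
  have h1 : (sim c v hv : ℂ → ℂ) = simAff c v := by
    funext z; rw [simAff_apply]; rfl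
  rw [h1, ← hull_eq, AffineMap.image_convexHull, regularPolygon, ← Set.range_comp]
  congr 2
  funext k
  rw [Function.comp_apply, simAff_apply, exp_pow]
  ring

theorem sim_dist (c v : ℂ) (hv : v ≠ 0) (x y : ℂ) :
    dist (sim c v hv x) (sim c v hv y) = ‖v / 8‖ * dist x y := by
  rw [sim_apply, sim_apply, dist_add_left, Complex.dist_eq, Complex.dist_eq, ← mul_sub, norm_mul]

theorem exists_g' (i : Fin 24) :
    ∃ g : ℂ ≃ᵢ ℂ, g '' boxU.set = (pU i).set ∧ g '' boxW.set = (pW i).set := by
  obtain ⟨g, hg⟩ := exists_act (code i).1 (code i).2.1 (code i).2.2.1 (code i).2.2.2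
  exact ⟨g, hg _, hg _⟩

theorem main (c v : ℂ) (hv : v ≠ 0) :
    ∃ P : Fin 24 → Set ℂ, CongruentDissection (regularPolygon 6 c v) 24 P ∧
      c ∈ interior (P 0) ∧ ∀ i, ∃ z ∈ interior (P i), StarConvex ℝ z (P i) := by
  choose g hgU hgW using exists_g'
  have hg : ∀ i, g i '' tile = piece i := by
    intro i
    rw [tile, image_union, hgU, hgW]; rfl
  set s := sim c v hv with hs
  have hpos : 0 < ‖v / 8‖ := norm_pos_iff.2 (div_ne_zero hv (by norm_num))
  -- the homeomorphism carrying the prototile to the piece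
  have hP : ∀ i, s '' piece i = ((g i).toHomeomorph.trans s) '' tile := by
    intro i
    rw [← hg i, image_image]; rfl
  refine ⟨fun i => s '' piece i, ?_, ?_, ?_⟩
  · refine ⟨by norm_num, ?_, ?_, ?_, ?_, ?_, ?_⟩
    · intro i
      exact (((pU i).isCompact.union (pW i).isCompact)).image s.continuous
    · intro i
      show closure (interior (s '' piece i)) = s '' piece i
      rw [hP i, ← Homeomorph.image_interior, ← Homeomorph.image_closure, closure_interior_tile]
    · intro i
      show RectifiableBoundary (s '' piece i)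
      rw [hP i]
      set φ := (g i).toHomeomorph.trans s with hφ
      have hφd : ∀ x y, dist (φ x) (φ y) = ‖v / 8‖ * dist x y := by
        intro x y
        show dist (s (g i x)) (s (g i y)) = _
        rw [hs, sim_dist, (g i).dist_eq]
      refine ⟨6, fun k t => φ (side k t), ?_, ?_⟩
      · intro k
        refine ⟨(φ.continuous.comp (side_continuous k)).continuousOn,
          (φ.injective.comp (side_inj k)).injOn, ?_⟩
        have hL : LipschitzWith ‖v / 8‖₊ φ :=
          LipschitzWith.of_dist_le_mul fun x y => (hφd x y).le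
        exact hL.comp_boundedVariationOn (side_bv k)
      · rw [← Homeomorph.image_frontier, frontier_tile_sides, image_iUnion]
        congr 1
        funext k
        rw [image_image]
    · show ⋃ i, s '' piece i = regularPolygon 6 c v
      rw [← image_iUnion, cover, polygon_eq c v hv]
    · intro i j hij
      show Disjoint (interior (s '' piece i)) (interior (s '' piece j))
      rw [← Homeomorph.image_interior, ← Homeomorph.image_interior,
        disjoint_image_iff s.injective]
      exact disj i j hij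
    · intro i j
      set e : ℂ ≃ᵢ ℂ := (g i).symm.trans (g j) with he
      have he' : e '' piece i = piece j := by
        rw [← hg i, ← hg j, image_image]
        apply image_congr
        intro x _
        show g j ((g i).symm (g i x)) = g j x
        rw [(g i).symm_apply_apply]
      have hiso : Isometry (fun z => s (e (s.symm z))) := by
        apply Isometry.of_dist_eq
        intro x y
        have h1 := sim_dist c v hv (s.symm x) (s.symm y)
        rw [← hs, s.apply_symm_apply, s.apply_symm_apply] at h1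
        show dist (s (e (s.symm x))) (s (e (s.symm y))) = dist x y
        rw [hs, sim_dist, ← hs, e.dist_eq, ← h1]
      refine ⟨IsometryEquiv.mk (s.symm.toEquiv.trans (e.toEquiv.trans s.toEquiv)) hiso, ?_⟩
      show (fun z => s (e (s.symm z))) '' (s '' piece i) = s '' piece j
      rw [image_image, ← he', image_image]
      apply image_congr
      intro x _
      rw [s.symm_apply_apply]
  · show c ∈ interior (s '' piece 0)
    rw [← Homeomorph.image_interior]
    refine ⟨0, ?_, by rw [hs, sim_apply]; simp⟩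
    have h0 : piece 0 = tile := by
      have hU : pU 0 = boxU := by decide
      have hW : pW 0 = boxW := by decide
      rw [piece, hU, hW]; rfl
    rw [h0]
    exact zero_mem_interior
  · intro i
    refine ⟨s (g i (pt 0 (1 / 2))), ?_, ?_⟩
    · show s (g i (pt 0 (1 / 2))) ∈ interior (s '' piece i)
      rw [← Homeomorph.image_interior]
      refine ⟨_, ?_, rfl⟩
      rw [← hg i]
      have h : (g i).toHomeomorph '' interior tile = interior (g i '' tile) :=
        Homeomorph.image_interior _ _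
      rw [← h]
      exact ⟨_, interior_mono subset_union_left mid_mem_U, rfl⟩
    · have hst : StarConvex ℝ (g i (pt 0 (1 / 2))) (piece i) := by
        apply StarConvex.union
        · apply (pU i).convex.starConvex
          rw [← hgU i]
          exact ⟨_, interior_subset mid_mem_U, rfl⟩
        · apply (pW i).convex.starConvex
          rw [← hgW i]
          exact ⟨_, interior_subset mid_mem_W, rfl⟩
      rintro _ ⟨y, hy, rfl⟩ a b ha hb hab
      refine ⟨a • g i (pt 0 (1 / 2)) + b • y, hst hy ha hb hab, ?_⟩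
      rw [hs, sim_apply, sim_apply, sim_apply]
      simp only [Complex.real_smul]
      have hab' : (a : ℂ) + b = 1 := by exact_mod_cast hab
      linear_combination (-c) * hab'

end Pool.Agent.helper15.Hexagon
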