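import Pool.Agent.helper15.Hexagon.Coord

/-!
The 24 pieces and the finite verification.
-/

set_option autoImplicit false

namespace Pool.Agent.helper15.Hexagon

open Set

/-- the two boxes whose union is the prototile -/
def boxU : Box := ⟨-4, 2, 0, 1, -3, 3⟩
def boxW : Box := ⟨-2, 2, -1, 1, -1, 3⟩

/-- the hexagon of side `8` -/
def boxH : Box := ⟨-8, 8, -8, 8, -8, 8⟩

def Box.rot (B : Box) : Box := ⟨-B.uy, -B.ly, B.ls, B.us, B.lx, B.ux⟩
def Box.conj (B : Box) : Box := ⟨B.ls, B.us, -B.uy, -B.ly, B.lx, B.ux⟩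
def Box.tr (a b : ℤ) (B : Box) : Box :=
  ⟨B.lx + a, B.ux + a, B.ly + b, B.uy + b, B.ls + (a + b), B.us + (a + b)⟩

/-- an isometry acting on boxes in a prescribed way -/
def Acts (g : ℂ ≃ᵢ ℂ) (T : Box → Box) : Prop := ∀ B : Box, g '' B.set = (T B).set

theorem Acts.of_mem {g : ℂ ≃ᵢ ℂ} {T : Box → Box} (h : ∀ B z, g z ∈ (T B).set ↔ z ∈ B.set) :
    Acts g T := by
  intro B
  ext w
  constructor
  · rintro ⟨z, hz, rfl⟩
    exact (h B z).2 hz
  · intro hw
    refine ⟨g.symm w, ?_, g.apply_symm_apply w⟩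
    rw [← h B, g.apply_symm_apply]; exact hw

theorem Acts.comp {g g' : ℂ ≃ᵢ ℂ} {T T' : Box → Box} (h : Acts g T) (h' : Acts g' T') :
    Acts (g.trans g') (T' ∘ T) := by
  intro B
  have e : (g.trans g') '' B.set = g' '' (g '' B.set) := by
    rw [image_image]; rfl
  rw [e, h B, h' (T B)]; rfl

theorem om_norm : ‖om‖ = 1 := by
  have h : ‖om‖ ^ 2 = 1 := by
    rw [← Complex.normSq_eq_norm_sq, Complex.normSq_apply]
    simp only [om]
    have := s3_sq; nlinarith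
  have h0 : 0 ≤ ‖om‖ := norm_nonneg _
  nlinarith

theorem om_ne : om ≠ 0 := by
  intro h
  have := om_norm
  rw [h, norm_zero] at this
  exact zero_ne_one this

theorem exists_rot : ∃ g : ℂ ≃ᵢ ℂ, Acts g Box.rot := by
  let e : ℂ ≃ ℂ := Equiv.mulLeft₀ om om_ne
  have he : Isometry e := by
    apply Isometry.of_dist_eq
    intro x y
    show dist (om * x) (om * y) = dist x y
    rw [Complex.dist_eq, Complex.dist_eq, ← mul_sub, norm_mul, om_norm, one_mul]
  refine ⟨⟨e, he⟩, Acts.of_mem ?_⟩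
  intro B z
  have h1 : (⟨e, he⟩ : ℂ ≃ᵢ ℂ) z = pt (-(Y z)) (X z + Y z) := by
    show om * z = _
    conv_lhs => rw [← pt_XY z]
    rw [om_mul_pt]
  rw [h1]
  simp only [Box.set, Box.rot, mem_ofPred_eq, X_pt, Y_pt, S_pt]
  have hS := S_apply z
  push_cast
  constructor
  · rintro ⟨a1, a2, a3, a4, a5, a6⟩
    refine ⟨?_, ?_, ?_, ?_, ?_, ?_⟩ <;> linarith
  · rintro ⟨a1, a2, a3, a4, a5, a6⟩
    refine ⟨?_, ?_, ?_, ?_, ?_, ?_⟩ <;> linarith

theorem exists_conj : ∃ g : ℂ ≃ᵢ ℂ, Acts g Box.conj := by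
  refine ⟨Complex.conjLIE.toIsometryEquiv, Acts.of_mem ?_⟩
  intro B z
  have h1 : Complex.conjLIE.toIsometryEquiv z = pt (X z + Y z) (-(Y z)) := by
    show (starRingEnd ℂ) z = _
    conv_lhs => rw [← pt_XY z]
    rw [conj_pt]
  rw [h1]
  simp only [Box.set, Box.conj, mem_ofPred_eq, X_pt, Y_pt, S_pt]
  have hS := S_apply z
  push_cast
  constructor
  · rintro ⟨a1, a2, a3, a4, a5, a6⟩
    refine ⟨?_, ?_, ?_, ?_, ?_, ?_⟩ <;> linarith
  · rintro ⟨a1, a2, a3, a4, a5, a6⟩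
    refine ⟨?_, ?_, ?_, ?_, ?_, ?_⟩ <;> linarith

theorem exists_tr (a b : ℤ) : ∃ g : ℂ ≃ᵢ ℂ, Acts g (Box.tr a b) := by
  refine ⟨IsometryEquiv.addRight (pt a b), Acts.of_mem ?_⟩
  intro B z
  have h1 : IsometryEquiv.addRight (pt a b) z = pt (X z + a) (Y z + b) := by
    show z + pt a b = _
    conv_lhs => rw [← pt_XY z]
    rw [pt_add]
  rw [h1]
  simp only [Box.set, Box.tr, mem_ofPred_eq, X_pt, Y_pt, S_pt]
  have hS := S_apply z
  push_cast
  constructor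
  · rintro ⟨a1, a2, a3, a4, a5, a6⟩
    refine ⟨?_, ?_, ?_, ?_, ?_, ?_⟩ <;> linarith
  · rintro ⟨a1, a2, a3, a4, a5, a6⟩
    refine ⟨?_, ?_, ?_, ?_, ?_, ?_⟩ <;> linarith

theorem exists_id : ∃ g : ℂ ≃ᵢ ℂ, Acts g id :=
  ⟨IsometryEquiv.refl ℂ, fun B => by
    have e : (IsometryEquiv.refl ℂ) '' B.set = (fun z : ℂ => z) '' B.set := rfl
    rw [e, image_id']; rfl⟩

theorem exists_rot_iter (k : ℕ) : ∃ g : ℂ ≃ᵢ ℂ, Acts g (Box.rot^[k]) := by
  induction k with
  | zero => exact exists_id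
  | succ k ih =>
    obtain ⟨g, hg⟩ := ih
    obtain ⟨r, hr⟩ := exists_rot
    refine ⟨g.trans r, ?_⟩
    rw [Function.iterate_succ']
    exact hg.comp hr

/-- box transformation with code `(f, k, a, b)` : reflect if `f`, rotate `k` times, translate -/
def act (f : Bool) (k : ℕ) (a b : ℤ) (B : Box) : Box :=
  Box.tr a b (Box.rot^[k] (if f then B.conj else B))

theorem exists_act (f : Bool) (k : ℕ) (a b : ℤ) : ∃ g : ℂ ≃ᵢ ℂ, Acts g (act f k a b) := by
  obtain ⟨t, ht⟩ := exists_tr a b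
  obtain ⟨r, hr⟩ := exists_rot_iter k
  obtain ⟨c, hc⟩ := exists_conj
  cases f with
  | false =>
    exact ⟨r.trans t, hr.comp ht⟩
  | true =>
    exact ⟨(c.trans r).trans t, (hc.comp hr).comp ht⟩

/-- the codes of the 24 pieces -/
def codes : List (Bool × ℕ × ℤ × ℤ) :=
  [(false, 0, 0, 0), (false, 1, -7, 3), (false, 3, -6, 7), (false, 0, -2, 7), (true, 3, -5, 5),
   (true, 0, -1, 5), (true, 2, 2, 5), (true, 5, -4, -3), (false, 4, -6, 1), (true, 4, -4, 0),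
   (false, 0, -1, 3), (false, 3, -2, 2), (true, 3, 1, -7), (true, 0, 5, -7), (true, 3, -1, -3),
   (false, 3, -1, -1), (false, 3, 0, -5), (false, 0, 4, -5), (true, 0, 3, -3), (true, 1, 2, 2),
   (false, 4, 5, -1), (false, 1, 4, 1), (false, 4, 7, -5), (false, 1, 7, -1)]

def code (i : Fin 24) : Bool × ℕ × ℤ × ℤ := codes.getD i.1 (false, 0, 0, 0)

def pU (i : Fin 24) : Box := act (code i).1 (code i).2.1 (code i).2.2.1 (code i).2.2.2 boxU
def pW (i : Fin 24) : Box := act (code i).1 (code i).2.1 (code i).2.2.1 (code i).2.2.2 boxW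

/-- the pieces -/
def piece (i : Fin 24) : Set ℂ := (pU i).set ∪ (pW i).set

def tile : Set ℂ := boxU.set ∪ boxW.set

theorem exists_g (i : Fin 24) : ∃ g : ℂ ≃ᵢ ℂ, g '' tile = piece i := by
  obtain ⟨g, hg⟩ := exists_act (code i).1 (code i).2.1 (code i).2.2.1 (code i).2.2.2
  refine ⟨g, ?_⟩
  rw [tile, image_union, hg, hg]; rfl

def Box.inH (B : Box) : Bool :=
  decide (-8 ≤ B.lx) && decide (B.ux ≤ 8) && decide (-8 ≤ B.ly) && decide (B.uy ≤ 8) &&
    decide (-8 ≤ B.ls) && decide (B.us ≤ 8)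

theorem inH_check : ∀ i : Fin 24, (pU i).inH = true ∧ (pW i).inH = true := by decide

def cellIn (a b c : ℤ) (i : Fin 24) : Bool := (pU i).cell a b c || (pW i).cell a b c

def okCell (a b c : ℤ) : Bool :=
  if -8 ≤ c ∧ c < 8 then ((List.finRange 24).filter (cellIn a b c)).length == 1 else true

theorem cell_check : ∀ a : Fin 16, ∀ b : Fin 16, ∀ t : Fin 2,
    okCell ((a : ℕ) - 8) ((b : ℕ) - 8) (((a : ℕ) - 8) + ((b : ℕ) - 8) + (t : ℕ)) = true := by
  decide +kernel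

end Pool.Agent.helper15.Hexagon
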