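import Pool.Agent.helper15.Hexagon.Pieces

/-!
Topology of the prototile, and the dissection of the hexagon of side `8`.
-/

set_option autoImplicit false

namespace Pool.Agent.helper15.Hexagon

open Set

theorem tile_eq : tile = {z | -1 ≤ Y z ∧ Y z ≤ 1 ∧ X z ≤ 2 ∧ -3 ≤ S z ∧ (0 ≤ Y z ∨ -1 ≤ S z)} := by
  ext z
  simp only [tile, Box.set, boxU, boxW, mem_union, mem_ofPred_eq]
  have hS := S_apply z
  push_cast
  constructor
  · rintro (⟨a1, a2, a3, a4, a5, a6⟩ | ⟨a1, a2, a3, a4, a5, a6⟩)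
    · exact ⟨by linarith, by linarith, by linarith, by linarith, Or.inl (by linarith)⟩
    · exact ⟨by linarith, by linarith, by linarith, by linarith, Or.inr (by linarith)⟩
  · rintro ⟨a1, a2, a3, a4, a5 | a5⟩
    · left; refine ⟨?_, ?_, ?_, ?_, ?_, ?_⟩ <;> linarith
    · right; refine ⟨?_, ?_, ?_, ?_, ?_, ?_⟩ <;> linarith

theorem tile_closed : IsClosed tile := boxU.isClosed.union boxW.isClosed
theorem tile_compact : IsCompact tile := boxU.isCompact.union boxW.isCompact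

/-- a point interior to both convex parts -/
theorem mid_mem_U : pt 0 (1 / 2) ∈ interior boxU.set := by
  apply Box.mem_interior <;> simp only [X_pt, Y_pt, S_pt, boxU] <;> norm_num

theorem mid_mem_W : pt 0 (1 / 2) ∈ interior boxW.set := by
  apply Box.mem_interior <;> simp only [X_pt, Y_pt, S_pt, boxW] <;> norm_num

theorem zero_mem_interior : (0 : ℂ) ∈ interior tile := by
  have h : (0 : ℂ) ∈ interior boxW.set := by
    apply Box.mem_interior <;> simp [boxW]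
  exact interior_mono subset_union_right h

theorem closure_interior_tile : closure (interior tile) = tile := by
  apply Subset.antisymm
  · exact (closure_mono interior_subset).trans tile_closed.closure_eq.subset
  · apply union_subset
    · conv_lhs => rw [← boxU.closure_interior ⟨_, mid_mem_U⟩]
      exact closure_mono (interior_mono subset_union_left)
    · conv_lhs => rw [← boxW.closure_interior ⟨_, mid_mem_W⟩]
      exact closure_mono (interior_mono subset_union_right)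

theorem exists_pos_of_interior {P : Set ℂ} {z : ℂ} (hz : z ∈ interior P) (d : ℂ) :
    ∃ δ : ℝ, 0 < δ ∧ z + δ • d ∈ P := by
  have hc : Continuous fun δ : ℝ => z + δ • d := by fun_prop
  have h0 : (fun δ : ℝ => z + δ • d) ⁻¹' (interior P) ∈ nhds (0 : ℝ) := by
    apply (isOpen_interior.preimage hc).mem_nhds
    simpa using hz
  obtain ⟨ε, hε, hb⟩ := Metric.mem_nhds_iff.1 h0
  refine ⟨ε / 2, by positivity, interior_subset (hb ?_)⟩
  rw [Metric.mem_ball, Real.dist_eq, sub_zero, abs_of_pos (by positivity)]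
  linarith

theorem lin_add (f : ℂ →L[ℝ] ℝ) (z d : ℂ) (δ : ℝ) : f (z + δ • d) = f z + δ * f d := by
  rw [map_add, map_smul]; rfl

theorem interior_tile : interior tile =
    {z | -1 < Y z ∧ Y z < 1 ∧ X z < 2 ∧ -3 < S z ∧ (0 < Y z ∨ -1 < S z)} := by
  apply Subset.antisymm
  · intro z hz
    have hz' := interior_subset hz
    rw [tile_eq] at hz'
    obtain ⟨a1, a2, a3, a4, a5⟩ := hz'
    have key : ∀ d : ℂ, ∃ δ : ℝ, 0 < δ ∧ -1 ≤ Y z + δ * Y d ∧ Y z + δ * Y d ≤ 1 ∧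
        X z + δ * X d ≤ 2 ∧ -3 ≤ S z + δ * S d ∧
        (0 ≤ Y z + δ * Y d ∨ -1 ≤ S z + δ * S d) := by
      intro d
      obtain ⟨δ, hδ, hm⟩ := exists_pos_of_interior hz d
      rw [tile_eq] at hm
      refine ⟨δ, hδ, ?_⟩
      simpa only [mem_ofPred_eq, lin_add] using hm
    refine ⟨?_, ?_, ?_, ?_, ?_⟩
    · obtain ⟨δ, hδ, h1, -⟩ := key (pt 0 (-1))
      simp only [Y_pt] at h1; linarith
    · obtain ⟨δ, hδ, -, h1, -⟩ := key (pt 0 1)
      simp only [Y_pt] at h1; linarith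
    · obtain ⟨δ, hδ, -, -, h1, -⟩ := key (pt 1 0)
      simp only [X_pt] at h1; linarith
    · obtain ⟨δ, hδ, -, -, -, h1, -⟩ := key (pt (-1) 0)
      simp only [S_pt] at h1; linarith
    · by_contra hcon
      push Not at hcon
      obtain ⟨δ, hδ, -, -, -, -, h1⟩ := key (pt 0 (-1))
      simp only [S_pt, Y_pt] at h1
      rcases h1 with h1 | h1 <;> linarith
  · intro z hz
    rw [_root_.mem_interior]
    refine ⟨(Y ⁻¹' Ioi (-1)) ∩ (Y ⁻¹' Iio 1) ∩ (X ⁻¹' Iio 2) ∩ (S ⁻¹' Ioi (-3)) ∩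
      ((Y ⁻¹' Ioi 0) ∪ (S ⁻¹' Ioi (-1))), ?_, ?_, ?_⟩
    · rintro w ⟨⟨⟨⟨h1, h2⟩, h3⟩, h4⟩, h5⟩
      rw [tile_eq]
      refine ⟨le_of_lt h1, le_of_lt h2, le_of_lt h3, le_of_lt h4, ?_⟩
      rcases h5 with h5 | h5
      · exact Or.inl (le_of_lt h5)
      · exact Or.inr (le_of_lt h5)
    · exact ((((isOpen_Ioi.preimage Y.continuous).inter (isOpen_Iio.preimage Y.continuous)).inter
        (isOpen_Iio.preimage X.continuous)).inter (isOpen_Ioi.preimage S.continuous)).inter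
        ((isOpen_Ioi.preimage Y.continuous).union (isOpen_Ioi.preimage S.continuous))
    · obtain ⟨h1, h2, h3, h4, h5⟩ := hz
      exact ⟨⟨⟨⟨h1, h2⟩, h3⟩, h4⟩, h5⟩

theorem frontier_tile : frontier tile =
    {z | (-1 ≤ Y z ∧ Y z ≤ 1 ∧ X z ≤ 2 ∧ -3 ≤ S z ∧ (0 ≤ Y z ∨ -1 ≤ S z)) ∧
      (Y z = -1 ∨ Y z = 1 ∨ X z = 2 ∨ S z = -3 ∨ (Y z ≤ 0 ∧ S z ≤ -1))} := by
  rw [tile_closed.frontier_eq, interior_tile]
  ext z
  rw [mem_sdiff, tile_eq]
  simp only [mem_ofPred_eq]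
  constructor
  · rintro ⟨⟨a1, a2, a3, a4, a5⟩, h⟩
    refine ⟨⟨a1, a2, a3, a4, a5⟩, ?_⟩
    by_contra hcon
    push Not at hcon
    obtain ⟨b1, b2, b3, b4, b5⟩ := hcon
    apply h
    refine ⟨lt_of_le_of_ne a1 (Ne.symm b1), lt_of_le_of_ne a2 b2, lt_of_le_of_ne a3 b3,
      lt_of_le_of_ne a4 (Ne.symm b4), ?_⟩
    by_cases hy : Y z ≤ 0
    · exact Or.inr (b5 hy)
    · exact Or.inl (not_le.1 hy)
  · rintro ⟨a, h⟩
    refine ⟨a, ?_⟩
    rintro ⟨b1, b2, b3, b4, b5⟩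
    rcases h with h | h | h | h | ⟨h, h'⟩
    · linarith
    · linarith
    · linarith
    · linarith
    · rcases b5 with b5 | b5 <;> linarith

/-- the six vertices of the prototile, in lattice coordinates -/
def vp : Fin 6 → ℝ × ℝ := ![(-4, 1), (2, 1), (2, -1), (0, -1), (-1, 0), (-3, 0)]

/-- the six side vectors -/
def vd : Fin 6 → ℝ × ℝ := ![(6, 0), (0, -2), (-2, 0), (-1, 1), (-2, 0), (-1, 1)]

/-- the six sides -/
noncomputable def side (k : Fin 6) (t : ℝ) : ℂ :=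
  pt ((vp k).1 + t * (vd k).1) ((vp k).2 + t * (vd k).2)

theorem side_eq (k : Fin 6) (t : ℝ) :
    side k t = pt (vp k).1 (vp k).2 + t • pt (vd k).1 (vd k).2 := by
  simp only [side, pt, Complex.real_smul]
  push_cast
  ring

theorem side_inj (k : Fin 6) : Function.Injective (side k) := by
  intro s t h
  have hx := congrArg X h
  have hy := congrArg Y h
  simp only [side, X_pt, Y_pt] at hx hy
  have aux : ∀ a b : ℝ, a ≠ 0 → b + s * a = b + t * a → s = t := by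
    intro a b ha h1
    have h3 : s * a = t * a := by linarith
    exact mul_right_cancel₀ ha h3
  fin_cases k
  · exact aux 6 (-4) (by norm_num) hx
  · exact aux (-2) 1 (by norm_num) hy
  · exact aux (-2) 2 (by norm_num) hx
  · exact aux (-1) 0 (by norm_num) hx
  · exact aux (-2) (-1) (by norm_num) hx
  · exact aux 1 0 (by norm_num) hy

theorem side_continuous (k : Fin 6) : Continuous (side k) := by
  have : side k = fun t => pt (vp k).1 (vp k).2 + t • pt (vd k).1 (vd k).2 :=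
    funext (side_eq k)
  rw [this]
  fun_prop

theorem side_bv (k : Fin 6) : BoundedVariationOn (side k) (Icc 0 1) := by
  have hL : LipschitzWith ‖pt (vd k).1 (vd k).2‖₊ (side k) := by
    apply LipschitzWith.of_dist_le_mul
    intro s t
    rw [side_eq, side_eq, dist_add_left, dist_eq_norm, ← sub_smul, norm_smul, coe_nnnorm,
      Real.dist_eq, Real.norm_eq_abs, mul_comm]
  have h := hL.lipschitzOnWith (s := (univ : Set ℝ))
  have h2 := h.locallyBoundedVariationOn 0 1 (mem_univ _) (mem_univ _)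
  rwa [univ_inter] at h2

theorem frontier_tile_sides : frontier tile = ⋃ k, side k '' Icc 0 1 := by
  rw [frontier_tile]
  ext z
  simp only [mem_ofPred_eq, mem_iUnion, mem_image, mem_Icc]
  have hS := S_apply z
  constructor
  · rintro ⟨⟨a1, a2, a3, a4, a5⟩, h⟩
    have mk : ∀ (k : Fin 6) (t x y dx dy : ℝ), vp k = (x, y) → vd k = (dx, dy) →
        0 ≤ t → t ≤ 1 → x + t * dx = X z → y + t * dy = Y z →
        ∃ k : Fin 6, ∃ t, (0 ≤ t ∧ t ≤ 1) ∧ side k t = z := by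
      intro k t x y dx dy e1 e2 h0 h1 hx hy
      refine ⟨k, t, ⟨h0, h1⟩, ?_⟩
      rw [side, e1, e2, hx, hy, pt_XY]
    rcases h with h | h | h | h | ⟨h, h'⟩
    · -- Y = -1 : side 2
      have hs : -1 ≤ S z := by
        rcases a5 with a5 | a5
        · linarith
        · exact a5
      exact mk 2 ((2 - X z) / 2) 2 (-1) (-2) 0 rfl rfl (by linarith) (by linarith)
        (by ring) (by linarith)
    · -- Y = 1 : side 0
      exact mk 0 ((X z + 4) / 6) (-4) 1 6 0 rfl rfl (by linarith) (by linarith)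
        (by ring) (by linarith)
    · -- X = 2 : side 1
      exact mk 1 ((1 - Y z) / 2) 2 1 0 (-2) rfl rfl (by linarith) (by linarith)
        (by linarith) (by ring)
    · -- S = -3 : side 5
      have hy : 0 ≤ Y z := by
        rcases a5 with a5 | a5
        · exact a5
        · linarith
      exact mk 5 (Y z) (-3) 0 (-1) 1 rfl rfl (by linarith) (by linarith) (by linarith)
        (by ring)
    · rcases a5 with a5 | a5
      · -- Y = 0 : side 4
        exact mk 4 ((-1 - X z) / 2) (-1) 0 (-2) 0 rfl rfl (by linarith) (by linarith)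
          (by ring) (by linarith)
      · -- S = -1 : side 3
        exact mk 3 (Y z + 1) 0 (-1) (-1) 1 rfl rfl (by linarith) (by linarith)
          (by linarith) (by ring)
  · rintro ⟨k, t, ⟨h0, h1⟩, rfl⟩
    clear hS
    have e : ∀ (x y dx dy : ℝ), vp k = (x, y) → vd k = (dx, dy) →
        side k t = pt (x + t * dx) (y + t * dy) := by
      intro x y dx dy e1 e2
      rw [side, e1, e2]
    fin_cases k
    · rw [e (-4) 1 6 0 rfl rfl]
      simp only [X_pt, Y_pt, S_pt]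
      refine ⟨⟨?_, ?_, ?_, ?_, Or.inl ?_⟩, Or.inr (Or.inl ?_)⟩ <;> linarith
    · rw [e 2 1 0 (-2) rfl rfl]
      simp only [X_pt, Y_pt, S_pt]
      refine ⟨⟨?_, ?_, ?_, ?_, Or.inr ?_⟩, Or.inr (Or.inr (Or.inl ?_))⟩ <;> linarith
    · rw [e 2 (-1) (-2) 0 rfl rfl]
      simp only [X_pt, Y_pt, S_pt]
      refine ⟨⟨?_, ?_, ?_, ?_, Or.inr ?_⟩, Or.inl ?_⟩ <;> linarith
    · rw [e 0 (-1) (-1) 1 rfl rfl]
      simp only [X_pt, Y_pt, S_pt]
      refine ⟨⟨?_, ?_, ?_, ?_, Or.inr ?_⟩, Or.inr (Or.inr (Or.inr (Or.inr ⟨?_, ?_⟩)))⟩ <;>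
        linarith
    · rw [e (-1) 0 (-2) 0 rfl rfl]
      simp only [X_pt, Y_pt, S_pt]
      refine ⟨⟨?_, ?_, ?_, ?_, Or.inl ?_⟩, Or.inr (Or.inr (Or.inr (Or.inr ⟨?_, ?_⟩)))⟩ <;>
        linarith
    · rw [e (-3) 0 (-1) 1 rfl rfl]
      simp only [X_pt, Y_pt, S_pt]
      refine ⟨⟨?_, ?_, ?_, ?_, Or.inl ?_⟩, Or.inr (Or.inr (Or.inr (Or.inl ?_)))⟩ <;> linarith

theorem piece_sub (i : Fin 24) : piece i ⊆ boxH.set := by
  have h := inH_check i
  have aux : ∀ B : Box, B.inH = true → B.set ⊆ boxH.set := by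
    intro B hB z hz
    simp only [Box.inH, Bool.and_eq_true, decide_eq_true_eq] at hB
    obtain ⟨⟨⟨⟨⟨b1, b2⟩, b3⟩, b4⟩, b5⟩, b6⟩ := hB
    obtain ⟨a1, a2, a3, a4, a5, a6⟩ := hz
    have c1 : (-8 : ℝ) ≤ B.lx := by exact_mod_cast b1
    have c2 : (B.ux : ℝ) ≤ 8 := by exact_mod_cast b2
    have c3 : (-8 : ℝ) ≤ B.ly := by exact_mod_cast b3
    have c4 : (B.uy : ℝ) ≤ 8 := by exact_mod_cast b4
    have c5 : (-8 : ℝ) ≤ B.ls := by exact_mod_cast b5
    have c6 : (B.us : ℝ) ≤ 8 := by exact_mod_cast b6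
    simp only [Box.set, boxH, mem_ofPred_eq]
    push_cast
    refine ⟨?_, ?_, ?_, ?_, ?_, ?_⟩ <;> linarith
  exact union_subset (aux _ h.1) (aux _ h.2)

theorem piece_iff {z : ℂ} (hz : z ∈ Gen) (i : Fin 24) :
    z ∈ piece i ↔ cellIn ⌊X z⌋ ⌊Y z⌋ ⌊S z⌋ i = true := by
  rw [piece, mem_union, Box.mem_iff_cell _ hz, Box.mem_iff_cell _ hz, cellIn, Bool.or_eq_true]

theorem cell_unique {z : ℂ} (hz : z ∈ Gen) (hH : z ∈ boxH.set) :
    ∃ i, ∀ j, z ∈ piece j ↔ j = i := by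
  obtain ⟨h1, h2, h3, h4, h5, h6⟩ := hH
  simp only [boxH] at h1 h2 h3 h4 h5 h6
  have f1 := le_floor_iff'.1 h1
  have f2 := (gen_le_iff hz.1).1 h2
  have f3 := le_floor_iff'.1 h3
  have f4 := (gen_le_iff hz.2.1).1 h4
  have f5 := le_floor_iff'.1 h5
  have f6 := (gen_le_iff hz.2.2).1 h6
  have hs := S_apply z
  have g1 : ⌊X z⌋ + ⌊Y z⌋ ≤ ⌊S z⌋ := by
    rw [Int.le_floor]
    have := Int.floor_le (X z)
    have := Int.floor_le (Y z)
    push_cast; linarith
  have g2 : ⌊S z⌋ < ⌊X z⌋ + ⌊Y z⌋ + 2 := by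
    rw [Int.floor_lt]
    have := Int.lt_floor_add_one (X z)
    have := Int.lt_floor_add_one (Y z)
    push_cast; linarith
  obtain ⟨a, ha⟩ : ∃ a : Fin 16, ⌊X z⌋ = (a : ℕ) - 8 :=
    ⟨⟨(⌊X z⌋ + 8).toNat, by omega⟩, by simp; omega⟩
  obtain ⟨b, hb⟩ : ∃ b : Fin 16, ⌊Y z⌋ = (b : ℕ) - 8 :=
    ⟨⟨(⌊Y z⌋ + 8).toNat, by omega⟩, by simp; omega⟩
  obtain ⟨t, ht⟩ : ∃ t : Fin 2, ⌊S z⌋ = ((a : ℕ) - 8) + ((b : ℕ) - 8) + (t : ℕ) :=
    ⟨⟨(⌊S z⌋ - (⌊X z⌋ + ⌊Y z⌋)).toNat, by omega⟩, by simp; omega⟩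
  have hc := cell_check a b t
  rw [← ha, ← hb] at hc
  rw [← ha, ← hb] at ht
  rw [← ht] at hc
  unfold okCell at hc
  rw [if_pos ⟨f5, f6⟩, beq_iff_eq, List.length_eq_one_iff] at hc
  obtain ⟨i, hi⟩ := hc
  refine ⟨i, fun j => ?_⟩
  rw [piece_iff hz]
  have : j ∈ (List.finRange 24).filter (cellIn ⌊X z⌋ ⌊Y z⌋ ⌊S z⌋) ↔ j ∈ [i] := by rw [hi]
  rw [List.mem_filter, List.mem_singleton] at this
  simpa using this

theorem boxH_interior : (interior boxH.set).Nonempty := by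
  refine ⟨0, ?_⟩
  apply Box.mem_interior <;> simp [boxH]

theorem cover : ⋃ i, piece i = boxH.set := by
  apply Subset.antisymm
  · exact iUnion_subset piece_sub
  · intro z hz
    by_contra hcon
    have hcl : IsClosed (⋃ i, piece i) :=
      isClosed_iUnion_of_finite fun i => ((pU i).isClosed.union (pW i).isClosed)
    have hz' : z ∈ closure (interior boxH.set) := by
      rw [boxH.closure_interior boxH_interior]; exact hz
    rw [_root_.mem_closure_iff] at hz'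
    obtain ⟨w, hw1, hw2⟩ := hz' _ hcl.isOpen_compl hcon
    obtain ⟨g, hg1, hg2⟩ := Gen_dense.inter_open_nonempty _
      (hcl.isOpen_compl.inter isOpen_interior) ⟨w, hw1, hw2⟩
    obtain ⟨i, hi⟩ := cell_unique hg2 (interior_subset hg1.2)
    exact hg1.1 (mem_iUnion.2 ⟨i, (hi i).2 rfl⟩)

theorem disj (i j : Fin 24) (hij : i ≠ j) :
    Disjoint (interior (piece i)) (interior (piece j)) := by
  rw [Set.disjoint_iff_inter_eq_empty]
  by_contra hne
  obtain ⟨w, hw⟩ := nonempty_iff_ne_empty.2 hne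
  obtain ⟨g, hg1, hg2⟩ := Gen_dense.inter_open_nonempty _
    (isOpen_interior.inter isOpen_interior) ⟨w, hw⟩
  have h1 := interior_subset hg1.1
  have h2 := interior_subset hg1.2
  obtain ⟨k, hk⟩ := cell_unique hg2 (piece_sub i h1)
  exact hij (((hk i).1 h1).trans ((hk j).1 h2).symm)

end Pool.Agent.helper15.Hexagon
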